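import Mathlib

/-!
A σ-closed topological Ramsey space with `p_R = ℵ₀ < t_R`.
-/

namespace Pool.Agent.Results.MP_fdc1ac_lc.Differ

open Set Cardinal

/-- The data `(R, ≤, ≤*, r)` together with the finitization `≤_fin`. -/
structure Data where
  R : Type
  AR : Type
  le : R → R → Prop
  les : R → R → Prop
  r : R → ℕ → AR
  lf : AR → AR → Prop

/-- The separative preorder of a quasi-order: every extension of `A` is compatible with `B`. -/
def Sep {R : Type} (le : R → R → Prop) (A B : R) : Prop :=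
  ∀ C, le C A → ∃ D, le D C ∧ le D B

namespace Data
variable (S : Data)

/-- `s ⊑ t` -/
def ini (s t : S.AR) : Prop := ∃ A m n, m ≤ n ∧ s = S.r A m ∧ t = S.r A n

/-- `[s, A]`. -/
def nb (s : S.AR) (A : S.R) : Set S.R := {B | (∃ n, s = S.r B n) ∧ S.le B A}

/-- `depth_B(a) = n`. -/
def depth (B : S.R) (a : S.AR) (n : ℕ) : Prop := IsLeast {m | S.lf a (S.r B m)} n

/-- Axioms A.1-A.4 and closedness. -/
structure IsTRS : Prop where
  ne : Nonempty S.R
  surj : ∀ a, ∃ A n, a = S.r A n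
  refl : ∀ A, S.le A A
  trans : ∀ A B C, S.le A B → S.le B C → S.le A C
  a11 : ∀ A B, S.r A 0 = S.r B 0
  a12 : ∀ A B, A ≠ B → ∃ n, S.r A n ≠ S.r B n
  a13 : ∀ A B n m, S.r A n = S.r B m → n = m ∧ ∀ k < n, S.r A k = S.r B k
  frefl : ∀ a, S.lf a a
  ftrans : ∀ a b c, S.lf a b → S.lf b c → S.lf a c
  a21 : ∀ b, {a | S.lf a b}.Finite
  a22 : ∀ A B, S.le A B ↔ ∀ n, ∃ m, S.lf (S.r A n) (S.r B m)
  a23 : ∀ a b c, S.ini a b → S.lf b c → ∃ d, S.ini d c ∧ S.lf a d
  a31 : ∀ a B n, S.depth B a n → ∀ A ∈ S.nb (S.r B n) B, (S.nb a A).Nonempty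
  a32 : ∀ a A B n, S.depth B a n → S.le A B → (S.nb a A).Nonempty →
    ∃ A' ∈ S.nb (S.r B n) B, (S.nb a A').Nonempty ∧ S.nb a A' ⊆ S.nb a A
  a4 : ∀ C k B n (O : Set S.AR), S.depth B (S.r C k) n → ∃ A ∈ S.nb (S.r B n) B,
    (∀ D ∈ S.nb (S.r C k) A, S.r D (k + 1) ∈ O) ∨ ∀ D ∈ S.nb (S.r C k) A, S.r D (k + 1) ∉ O
  closed : @IsClosed (ℕ → S.AR) (@Pi.topologicalSpace _ _ fun _ => ⊥) (range S.r)

/-- `≤*` is a σ-closed quasi-order coarsening `≤`, and the identity map induces an isomorphism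
of the separative quotients of `(R,≤)` and `(R,≤*)`. -/
structure IsSigmaClosed : Prop where
  refl : ∀ A, S.les A A
  trans : ∀ A B C, S.les A B → S.les B C → S.les A C
  coarse : ∀ A B, S.le A B → S.les A B
  sigma : ∀ g : ℕ → S.R, (∀ n, S.les (g (n + 1)) (g n)) → ∃ Y, ∀ n, S.les Y (g n)
  sep : ∀ A B, Sep S.le A B ↔ Sep S.les A B

def HasPI (F : Set S.R) : Prop := ∃ Y, ∀ X ∈ F, S.les Y X

def SFIP (F : Set S.R) : Prop := ∀ G ⊆ F, G.Finite → S.HasPI G

def Tower (F : Set S.R) : Prop := (∀ X ∈ F, ∀ Y ∈ F, S.les X Y ∨ S.les Y X) ∧ ¬ S.HasPI F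

noncomputable def pR : Cardinal := sInf {c | ∃ F : Set S.R, S.SFIP F ∧ ¬ S.HasPI F ∧ #F = c}

noncomputable def tR : Cardinal := sInf {c | ∃ F : Set S.R, S.Tower F ∧ #F = c}

end Data

/-! ### The Ellentuck part -/

abbrev E : Type := {A : Set ℕ // A.Infinite}

noncomputable def rE (A : E) (n : ℕ) : Finset ℕ := (Finset.range n).image (Nat.nth (· ∈ A.1))

def Init (a : Finset ℕ) (A : Set ℕ) : Prop := ↑a ⊆ A ∧ ∀ x ∈ A, ∀ y ∈ a, x ≤ y → x ∈ a

lemma smono (A : E) : StrictMono (Nat.nth (· ∈ A.1)) := Nat.nth_strictMono A.2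

lemma exn (A : E) {x : ℕ} (hx : x ∈ A.1) : ∃ i, Nat.nth (· ∈ A.1) i = x := by
  have := Nat.range_nth_of_infinite (p := (· ∈ A.1)) A.2
  have h : x ∈ range (Nat.nth (· ∈ A.1)) := by rw [this]; exact hx
  exact h

lemma nmem (A : E) (i : ℕ) : Nat.nth (· ∈ A.1) i ∈ A.1 := Nat.nth_mem_of_infinite (p := (· ∈ A.1)) A.2 i

lemma mem_rE {A : E} {n i : ℕ} : Nat.nth (· ∈ A.1) i ∈ rE A n ↔ i < n := by
  simp [rE, (smono A).injective.eq_iff]

lemma card_rE (A : E) (n : ℕ) : (rE A n).card = n := by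
  rw [rE, Finset.card_image_of_injective _ (smono A).injective, Finset.card_range]

lemma sub_rE (A : E) (n : ℕ) : ↑(rE A n) ⊆ A.1 := by
  intro x hx
  obtain ⟨i, -, rfl⟩ := Finset.mem_image.1 hx
  exact nmem A i

lemma init_rE (A : E) (n : ℕ) : Init (rE A n) A.1 := by
  refine ⟨sub_rE A n, fun x hx y hy h => ?_⟩
  obtain ⟨i, rfl⟩ := exn A hx
  obtain ⟨j, rfl⟩ := exn A (sub_rE A n hy)
  rw [mem_rE] at hy ⊢
  exact lt_of_le_of_lt ((smono A).le_iff_le.1 h) hy

lemma init_total {a b : Finset ℕ} {A : Set ℕ} (ha : Init a A) (hb : Init b A) :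
    a ⊆ b ∨ b ⊆ a := by
  by_contra h
  rw [not_or, Finset.not_subset, Finset.not_subset] at h
  obtain ⟨⟨x, xa, xb⟩, y, yb, ya⟩ := h
  rcases le_total x y with h | h
  · exact xb (hb.2 x (ha.1 xa) y yb h)
  · exact ya (ha.2 y (hb.1 yb) x xa h)

lemma init_eq {a : Finset ℕ} {A : E} (ha : Init a A.1) : a = rE A a.card := by
  rcases init_total ha (init_rE A a.card) with h | h
  · exact Finset.eq_of_subset_of_card_le h (card_rE _ _).le
  · exact (Finset.eq_of_subset_of_card_le h (card_rE _ _).ge).symm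

lemma rE_mono (A : E) {m n : ℕ} (h : m ≤ n) : rE A m ⊆ rE A n :=
  Finset.image_subset_image (Finset.range_mono h)

lemma rE_succ (A : E) (n : ℕ) : rE A (n + 1) = insert (Nat.nth (· ∈ A.1) n) (rE A n) := by
  rw [rE, Finset.range_add_one, Finset.image_insert]; rfl

lemma rE_zero (A : E) : rE A 0 = ∅ := rfl

def tail (a : Finset ℕ) (A : E) : E :=
  ⟨↑a ∪ {x ∈ A.1 | ∀ y ∈ a, y < x}, by
    refine Set.Infinite.mono subset_union_right ?_
    refine Set.Infinite.mono ?_ (A.2.diff (Set.finite_Iic (a.sup id)))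
    intro x hx
    exact ⟨hx.1, fun y hy => lt_of_le_of_lt (Finset.le_sup (f := id) hy) (not_le.1 hx.2)⟩⟩

lemma init_tail (a : Finset ℕ) (A : E) : Init a (tail a A).1 := by
  refine ⟨subset_union_left, ?_⟩
  rintro x (hx | hx) y hy h
  · exact hx
  · exact absurd (hx.2 y hy) (not_lt.2 h)

lemma tail_sub {a : Finset ℕ} {A : E} {B : Set ℕ} (ha : ↑a ⊆ B) (hA : A.1 ⊆ B) :
    (tail a A).1 ⊆ B := union_subset ha fun _ hx => hA hx.1

lemma top {a : Finset ℕ} {B : E} {n : ℕ} (h : IsLeast {m | a ⊆ rE B m} n) :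
    ∀ x ∈ rE B n, ∃ y ∈ a, x ≤ y := by
  intro x hx
  by_contra hc
  push Not at hc
  obtain ⟨i, rfl⟩ := exn B (sub_rE B n hx)
  have : a ⊆ rE B i := by
    intro y hy
    obtain ⟨j, rfl⟩ := exn B (sub_rE B n (h.1 hy))
    exact mem_rE.2 ((smono B).lt_iff_lt.1 (hc _ hy))
  exact absurd (h.2 this) (not_le.2 (mem_rE.1 hx))

/-! ### The space -/

abbrev Z : Type := Bool × ℕ

def leZ (z w : Z) : Prop := z = w ∨ (z.1 = true ∧ w.1 = false ∧ w.2 ≤ z.2)

def lfZ (p q : Z × ℕ) : Prop :=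
  p = q ∨ (p.1.1 = true ∧ q.1.1 = false ∧ q.1.2 ≤ p.1.2 ∧ q.2 = p.2 + p.1.2)

def le' : E ⊕ Z → E ⊕ Z → Prop
  | .inl A, .inl B => A.1 ⊆ B.1
  | .inr z, .inr w => leZ z w
  | _, _ => False

def les' : E ⊕ Z → E ⊕ Z → Prop
  | .inl A, .inl B => (A.1 \ B.1).Finite
  | .inr z, .inr w => leZ z w
  | _, _ => False

noncomputable def r' : E ⊕ Z → ℕ → Finset ℕ ⊕ (Z × ℕ)
  | .inl A, n => .inl (rE A n)
  | .inr _, 0 => .inl ∅
  | .inr z, n + 1 => .inr (z, n)

def lf' : Finset ℕ ⊕ (Z × ℕ) → Finset ℕ ⊕ (Z × ℕ) → Prop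
  | .inl a, .inl b => a ⊆ b
  | .inr p, .inr q => lfZ p q
  | _, _ => False

noncomputable def sp : Data := ⟨E ⊕ Z, Finset ℕ ⊕ (Z × ℕ), le', les', r', lf'⟩

lemma leZ_trans {a b c : Z} (h : leZ a b) (h' : leZ b c) : leZ a c := by
  rcases h with rfl | h
  · exact h'
  · rcases h' with rfl | h'
    · exact Or.inr h
    · exact absurd (h'.1.symm.trans h.2.1) (by decide)

lemma le_refl' : ∀ A, le' A A
  | .inl _ => subset_rfl
  | .inr _ => Or.inl rfl

lemma le_trans' : ∀ A B C, le' A B → le' B C → le' A C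
  | .inl _, .inl _, .inl _, h, h' => Subset.trans h h'
  | .inr _, .inr _, .inr _, h, h' => leZ_trans h h'
  | .inl _, .inr _, _, h, _ => h.elim
  | .inr _, .inl _, _, h, _ => h.elim
  | .inl _, .inl _, .inr _, _, h => h.elim
  | .inr _, .inr _, .inl _, _, h => h.elim

lemma r_zero : ∀ A, r' A 0 = .inl ∅
  | .inl _ => rfl
  | .inr _ => rfl

lemma r_inr {A : E ⊕ Z} {n : ℕ} {p : Z × ℕ} (h : r' A n = .inr p) : A = .inr p.1 ∧ n = p.2 + 1 := by
  rcases A with A | z
  · cases h
  · cases n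
    · cases h
    · cases h; exact ⟨rfl, rfl⟩

lemma a13' (A B : E ⊕ Z) (n m : ℕ) (h : r' A n = r' B m) :
    n = m ∧ ∀ k < n, r' A k = r' B k := by
  have key : ∀ (A : E) (z : Z) n m, r' (.inl A) n = r' (.inr z) m → n = 0 ∧ m = 0 := by
    intro A z n m h
    cases m
    · have : rE A n = ∅ := Sum.inl_injective h
      exact ⟨by rw [← card_rE A n, this]; rfl, rfl⟩
    · cases h
  rcases A with A | z <;> rcases B with B | w
  · have h' : rE A n = rE B m := Sum.inl_injective h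
    have e : n = m := by rw [← card_rE A n, h', card_rE]
    refine ⟨e, fun k hk => congrArg Sum.inl ?_⟩
    have : Init (rE A k) B.1 := by
      refine ⟨fun x hx => sub_rE B m (h' ▸ rE_mono A hk.le hx), fun x hx y hy hxy => ?_⟩
      have h1 : x ∈ rE B m := (init_rE B m).2 x hx y (h' ▸ rE_mono A hk.le hy) hxy
      exact (init_rE A k).2 x (sub_rE A n (h'.symm ▸ h1)) y hy hxy
    have := init_eq this
    rwa [card_rE] at this
  · obtain ⟨rfl, rfl⟩ := key _ _ _ _ h
    exact ⟨rfl, fun k hk => absurd hk (Nat.not_lt_zero k)⟩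
  · obtain ⟨rfl, rfl⟩ := key _ _ _ _ h.symm
    exact ⟨rfl, fun k hk => absurd hk (Nat.not_lt_zero k)⟩
  · cases n <;> cases m
    · exact ⟨rfl, fun k hk => absurd hk (Nat.not_lt_zero k)⟩
    · cases h
    · cases h
    · cases h; exact ⟨rfl, fun _ _ => rfl⟩

lemma surj' : ∀ a, ∃ A n, a = r' A n
  | .inl a => ⟨.inl (tail a ⟨univ, infinite_univ⟩), a.card, congrArg Sum.inl (init_eq (init_tail _ _))⟩
  | .inr p => ⟨.inr p.1, p.2 + 1, rfl⟩

lemma a22' (A B : E ⊕ Z) : le' A B ↔ ∀ n, ∃ m, lf' (r' A n) (r' B m) := by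
  rcases A with A | z <;> rcases B with B | w
  · constructor
    · intro h n
      induction n with
      | zero => exact ⟨0, subset_rfl⟩
      | succ n ih =>
        obtain ⟨m, hm⟩ := ih
        obtain ⟨i, hi⟩ := exn B (h (nmem A n))
        refine ⟨max m (i + 1), ?_⟩
        show rE A (n + 1) ⊆ rE B _
        rw [rE_succ, ← hi]
        exact Finset.insert_subset (mem_rE.2 (by omega))
          (Finset.Subset.trans hm (rE_mono B (le_max_left _ _)))
    · intro h x hx
      obtain ⟨i, rfl⟩ := exn A hx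
      obtain ⟨m, hm⟩ := h (i + 1)
      exact sub_rE B m (hm (mem_rE.2 (Nat.lt_succ_self i)))
  · refine ⟨False.elim, fun h => ?_⟩
    obtain ⟨m, hm⟩ := h 1
    cases m
    · exact absurd (hm (mem_rE.2 Nat.zero_lt_one)) (Finset.notMem_empty _)
    · exact hm
  · refine ⟨False.elim, fun h => ?_⟩
    obtain ⟨m, hm⟩ := h 1
    exact hm
  · constructor
    · rintro (rfl | h) n
      · cases n with
        | zero => exact ⟨0, subset_rfl⟩
        | succ n => exact ⟨n + 1, Or.inl rfl⟩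
      · cases n with
        | zero => exact ⟨0, subset_rfl⟩
        | succ n => exact ⟨n + z.2 + 1, Or.inr ⟨h.1, h.2.1, h.2.2, rfl⟩⟩
    · intro h
      obtain ⟨m, hm⟩ := h 1
      cases m
      · exact hm.elim
      · rcases hm with hm | hm
        · exact Or.inl (congrArg Prod.fst hm)
        · exact Or.inr ⟨hm.1, hm.2.1, hm.2.2.1⟩

lemma nb_inr {p : Z × ℕ} {A D : E ⊕ Z} (h : D ∈ sp.nb (.inr p) A) : D = .inr p.1 := by
  obtain ⟨⟨n, hn⟩, -⟩ := h
  exact (r_inr hn.symm).1

lemma nb_inl {a : Finset ℕ} {A : E} {D : E ⊕ Z} (h : D ∈ sp.nb (.inl a) (.inl A)) :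
    ∃ D' : E, D = .inl D' ∧ Init a D'.1 ∧ D'.1 ⊆ A.1 := by
  obtain ⟨⟨n, hn⟩, h2⟩ := h
  rcases D with D | D
  · refine ⟨D, rfl, ?_, h2⟩
    rw [show a = rE D n from Sum.inl_injective hn]
    exact init_rE D n
  · exact h2.elim

lemma mem_nb {a : Finset ℕ} {A D : E} (h : Init a D.1) (h' : D.1 ⊆ A.1) :
    Sum.inl D ∈ sp.nb (.inl a) (.inl A) := ⟨⟨_, congrArg Sum.inl (init_eq h)⟩, h'⟩

lemma depth_inr {p : Z × ℕ} {B : E ⊕ Z} {n : ℕ} (h : sp.depth B (.inr p) n) :
    ∃ w k, B = .inr w ∧ n = k + 1 ∧ leZ p.1 w := by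
  have h1 : lf' (.inr p) (r' B n) := h.1
  rcases B with B | w
  · exact h1.elim
  · cases n with
    | zero => exact h1.elim
    | succ k =>
      refine ⟨w, k, rfl, rfl, ?_⟩
      rcases h1 with h1 | h1
      · exact Or.inl (congrArg Prod.fst h1)
      · exact Or.inr ⟨h1.1, h1.2.1, h1.2.2.1⟩

lemma depth_inl {a : Finset ℕ} {w : Z} {n : ℕ} (h : sp.depth (.inr w) (.inl a) n) :
    a = ∅ ∧ n = 0 := by
  have h1 : lf' (.inl a) (r' (.inr w) n) := h.1
  cases n
  · exact ⟨Finset.subset_empty.1 h1, rfl⟩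
  · exact h1.elim

theorem trs : sp.IsTRS where
  ne := ⟨.inr (true, 0)⟩
  surj := surj'
  refl := le_refl'
  trans := le_trans'
  a11 A B := (r_zero A).trans (r_zero B).symm
  a12 A B h := by
    by_contra hc
    push Not at hc
    have h1 : le' A B := (a22' A B).2 fun n => ⟨n, by
      rw [show r' A n = r' B n from hc n]
      rcases r' B n with b | b
      · exact subset_rfl
      · exact Or.inl rfl⟩
    have h2 : le' B A := (a22' B A).2 fun n => ⟨n, by
      rw [show r' A n = r' B n from hc n]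
      rcases r' B n with b | b
      · exact subset_rfl
      · exact Or.inl rfl⟩
    rcases A with A | z <;> rcases B with B | w
    · exact h (congrArg Sum.inl (Subtype.ext (Subset.antisymm h1 h2)))
    · exact h1
    · exact h1
    · exact h (r_inr (A := .inr z) (n := 1) (p := (w, 0)) (hc 1)).1
  a13 := a13'
  frefl
    | .inl _ => subset_rfl
    | .inr _ => Or.inl rfl
  ftrans
    | .inl _, .inl _, .inl _, h, h' => Finset.Subset.trans h h'
    | .inr _, .inr _, .inr _, h, h' => by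
        rcases h with rfl | h
        · exact h'
        · rcases h' with rfl | h'
          · exact Or.inr h
          · exact absurd (h'.1.symm.trans h.2.1) (by decide)
    | .inl _, .inr _, _, h, _ => h.elim
    | .inr _, .inl _, _, h, _ => h.elim
    | .inl _, .inl _, .inr _, _, h => h.elim
    | .inr _, .inr _, .inl _, _, h => h.elim
  a21
    | .inl b => by
        refine (b.powerset.finite_toSet.image Sum.inl).subset ?_
        rintro (a | a) h
        · exact ⟨a, Finset.mem_powerset.2 h, rfl⟩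
        · exact h.elim
    | .inr q => by
        refine (((((Set.finite_Iic q.2).prod (Set.finite_Iic q.2)).image
          fun x : ℕ × ℕ => ((true, x.1), x.2)).insert q).image Sum.inr).subset ?_
        rintro (a | ⟨⟨b, m⟩, k⟩) h
        · exact h.elim
        · refine ⟨_, ?_, rfl⟩
          rcases h with h | ⟨h1, -, -, h4⟩
          · exact Or.inl h
          · simp only at h1 h4
            subst h1
            exact Or.inr ⟨(m, k), ⟨by simp; omega, by simp; omega⟩, rfl⟩
  a22 := a22'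
  a23 a b c hab hbc := by
    obtain ⟨A, m, n, hmn, rfl, rfl⟩ := hab
    rcases c with c | ⟨w, l⟩
    · obtain ⟨C, k, hC⟩ := surj' (.inl c)
      refine ⟨.inl c, ⟨C, k, k, le_rfl, hC, hC⟩, ?_⟩
      rcases A with A | z
      · exact Finset.Subset.trans (rE_mono A hmn) hbc
      · cases n
        · rw [Nat.le_zero.1 hmn]; exact hbc
        · exact hbc.elim
    · rcases A with A | z
      · exact hbc.elim
      · cases n with
        | zero => exact hbc.elim
        | succ n =>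
          cases m with
          | zero => exact ⟨.inl ∅, ⟨.inr w, 0, l + 1, by omega, rfl, rfl⟩, subset_rfl⟩
          | succ m =>
            rcases hbc with h | ⟨h1, h2, h3, h4⟩
            · obtain ⟨rfl, rfl⟩ := Prod.mk.inj h
              exact ⟨.inr (z, m), ⟨.inr z, m + 1, n + 1, hmn, rfl, rfl⟩, Or.inl rfl⟩
            · simp only at h1 h2 h3 h4
              exact ⟨.inr (w, m + z.2), ⟨.inr w, m + z.2 + 1, l + 1, by omega, rfl, rfl⟩,
                Or.inr ⟨h1, h2, h3, rfl⟩⟩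
  a31 a B n hd A hA := by
    rcases a with a | p
    · rcases B with B | w
      · obtain ⟨A, rfl, h1, -⟩ := nb_inl hA
        exact ⟨_, mem_nb (init_tail a A) (tail_sub (fun x hx => h1.1 (hd.1 hx)) subset_rfl)⟩
      · obtain ⟨rfl, rfl⟩ := depth_inl hd
        exact ⟨A, ⟨0, (r_zero A).symm⟩, le_refl' A⟩
    · obtain ⟨w, k, rfl, rfl, h⟩ := depth_inr hd
      rw [nb_inr hA]
      exact ⟨.inr p.1, ⟨p.2 + 1, rfl⟩, h⟩
  a32 a A B n hd hAB hne := by
    rcases a with a | p
    · rcases B with B | w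
      · rcases A with A | z
        · obtain ⟨C, hC⟩ := hne
          obtain ⟨C, rfl, c1, c2⟩ := nb_inl hC
          refine ⟨.inl (tail (rE B n) A), mem_nb (init_tail _ _) (tail_sub (sub_rE B n) hAB),
            ⟨_, mem_nb (init_tail a _) (tail_sub (fun x hx => Or.inl (hd.1 hx)) subset_rfl)⟩,
            fun D hD => ?_⟩
          obtain ⟨D, rfl, d1, d2⟩ := nb_inl hD
          refine mem_nb d1 fun x hx => ?_
          rcases d2 hx with h | h
          · obtain ⟨y, hy, hxy⟩ := top hd x h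
            exact c2 (c1.1 (d1.2 x hx y hy hxy))
          · exact h.1
        · exact hAB.elim
      · obtain ⟨rfl, rfl⟩ := depth_inl hd
        exact ⟨A, ⟨⟨0, (r_zero A).symm⟩, hAB⟩, hne, subset_rfl⟩
    · obtain ⟨w, k, rfl, rfl, h⟩ := depth_inr hd
      obtain ⟨C, hC⟩ := hne
      refine ⟨.inr w, ⟨⟨_, rfl⟩, le_refl' (.inr w)⟩, ⟨.inr p.1, ⟨p.2 + 1, rfl⟩, h⟩, fun D hD => ?_⟩
      rw [nb_inr hD, ← nb_inr hC]
      exact hC
  a4 C k B n O hd := by
    have single : ∀ (s : Set (E ⊕ Z)) (D₀ : E ⊕ Z), (∀ D ∈ s, D = D₀) →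
        (∀ D ∈ s, r' D (k + 1) ∈ O) ∨ ∀ D ∈ s, r' D (k + 1) ∉ O := fun s D₀ h =>
      (em (r' D₀ (k + 1) ∈ O)).imp (fun e D hD => h D hD ▸ e) fun e D hD => h D hD ▸ e
    rcases ha : sp.r C k with a | p
    · rw [ha] at hd
      rcases B with B | w
      · have key : ∀ H : E, H.1 ⊆ B.1 → ∀ D ∈ sp.nb (.inl a) (.inl (tail (rE B n) H)),
            ∃ x ∈ H.1, r' D (k + 1) = .inl (insert x a) := by
          intro H _ D hD
          obtain ⟨m, hm⟩ := hD.1
          have e : k = m := (a13' C D k m (ha.trans hm)).1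
          obtain ⟨D, rfl, d1, d2⟩ := nb_inl hD
          have e2 : a = rE D k := e ▸ Sum.inl_injective hm
          refine ⟨Nat.nth (· ∈ D.1) k, ?_, by rw [e2]; exact congrArg Sum.inl (rE_succ D k)⟩
          rcases d2 (nmem D k) with h | h
          · obtain ⟨y, hy, hxy⟩ := top hd _ h
            have := d1.2 _ (nmem D k) y hy hxy
            rw [e2, mem_rE] at this
            exact absurd this (lt_irrefl k)
          · exact h.1
        have hsplit : {x ∈ B.1 | Sum.inl (insert x a) ∈ O}.Infinite ∨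
            {x ∈ B.1 | Sum.inl (insert x a) ∉ O}.Infinite := by
          rw [← Set.infinite_union]
          refine B.2.mono fun x hx => ?_
          exact (em _).imp (fun h => ⟨hx, h⟩) fun h => ⟨hx, h⟩
        rcases hsplit with h | h
        · refine ⟨_, mem_nb (init_tail _ ⟨_, h⟩) (tail_sub (sub_rE B n) fun x hx => hx.1),
            Or.inl fun D hD => ?_⟩
          obtain ⟨x, hx, e⟩ := key ⟨_, h⟩ (fun x hx => hx.1) D hD
          exact (show r' D (k + 1) ∈ O from e ▸ hx.2)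
        · refine ⟨_, mem_nb (init_tail _ ⟨_, h⟩) (tail_sub (sub_rE B n) fun x hx => hx.1),
            Or.inr fun D hD => ?_⟩
          obtain ⟨x, hx, e⟩ := key ⟨_, h⟩ (fun x hx => hx.1) D hD
          exact (show r' D (k + 1) ∉ O from e ▸ hx.2)
      · obtain ⟨rfl, rfl⟩ := depth_inl hd
        refine ⟨.inr (true, w.2), ⟨⟨0, rfl⟩, ?_⟩, single _ (.inr (true, w.2)) ?_⟩
        · rcases w with ⟨_ | _, m⟩
          · exact Or.inr ⟨rfl, rfl, le_rfl⟩
          · exact Or.inl rfl
        · rintro (D | D) ⟨-, h | h⟩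
          · exact congrArg Sum.inr h
          · exact absurd h.2.1 (by simp)
    · rw [ha] at hd
      exact ⟨B, ⟨⟨n, rfl⟩, le_refl' B⟩, single _ (.inr p.1) fun D hD => nb_inr hD⟩
  closed := by
    let _i : TopologicalSpace (Finset ℕ ⊕ (Z × ℕ)) := ⊥
    have : DiscreteTopology (Finset ℕ ⊕ (Z × ℕ)) := ⟨rfl⟩
    change IsClosed (range r')
    refine isClosed_of_closure_subset fun x hx => ?_
    have H : ∀ N, ∃ A, ∀ n ≤ N, r' A n = x n := by
      intro N
      have ho : IsOpen {y : ℕ → Finset ℕ ⊕ (Z × ℕ) | ∀ n ∈ Set.Iic N, y n ∈ ({x n} : Set _)} :=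
        isOpen_set_pi (Set.finite_Iic N) fun _ _ => isOpen_discrete _
      obtain ⟨_, h1, A, rfl⟩ := mem_closure_iff.1 hx _ ho fun _ _ => rfl
      exact ⟨A, fun n hn => h1 n hn⟩
    choose A hA using H
    rcases h1 : x 1 with a | p
    · have hE : ∀ N, ∃ B : E, A (N + 1) = .inl B := by
        intro N
        have := hA (N + 1) 1 (by omega)
        rcases h : A (N + 1) with B | z
        · exact ⟨B, rfl⟩
        · rw [h, h1] at this; cases this
      choose B hB using hE
      have hx' : ∀ N n, n ≤ N → x n = .inl (rE (B N) n) := fun N n h => by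
        rw [← hA (N + 1) n (by omega), hB]; rfl
      have hc : ∀ N n, n ≤ N → rE (B n) n = rE (B N) n := fun N n h =>
        Sum.inl_injective ((hx' n n le_rfl).symm.trans (hx' N n h))
      let U : Set ℕ := ⋃ n, ↑(rE (B n) n)
      have hU : U.Infinite := by
        intro hf
        have h1 : rE (B (hf.toFinset.card + 1)) (hf.toFinset.card + 1) ⊆ hf.toFinset := fun y hy =>
          hf.mem_toFinset.2 (mem_iUnion.2 ⟨_, hy⟩)
        have := Finset.card_le_card h1
        rw [card_rE] at this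
        omega
      refine ⟨.inl ⟨U, hU⟩, funext fun n => ?_⟩
      rw [hx' n n le_rfl]
      have : Init (rE (B n) n) (⟨U, hU⟩ : E).1 := by
        refine ⟨fun y hy => mem_iUnion.2 ⟨n, hy⟩, fun y hy y' hy' h => ?_⟩
        obtain ⟨m, hm⟩ := mem_iUnion.1 hy
        rw [hc (max m n) n (le_max_right _ _)] at hy' ⊢
        rw [hc (max m n) m (le_max_left _ _)] at hm
        exact (init_rE _ _).2 y (sub_rE _ _ hm) y' hy' h
      have h2 := init_eq this
      rw [card_rE] at h2
      exact congrArg Sum.inl h2.symm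
    · refine ⟨.inr p.1, funext fun n => ?_⟩
      rw [← hA (n + 1) n (by omega), (r_inr ((hA (n + 1) 1 (by omega)).trans h1)).1]

lemma les_refl : ∀ A, les' A A
  | .inl _ => by show (_ \ _ : Set ℕ).Finite; simp
  | .inr _ => Or.inl rfl

lemma les_trans : ∀ A B C, les' A B → les' B C → les' A C
  | .inl _, .inl B, .inl _, h, h' => (Set.Finite.union h h').subset fun x hx =>
      (em (x ∈ B.1)).symm.imp (fun e => ⟨hx.1, e⟩) fun e => ⟨e, hx.2⟩
  | .inr _, .inr _, .inr _, h, h' => leZ_trans h h'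
  | .inl _, .inr _, _, h, _ => h.elim
  | .inr _, .inl _, _, h, _ => h.elim
  | .inl _, .inl _, .inr _, _, h => h.elim
  | .inr _, .inr _, .inl _, _, h => h.elim

lemma coarse' : ∀ A B, le' A B → les' A B
  | .inl _, .inl _, h => by
      show (_ \ _ : Set ℕ).Finite
      rw [diff_eq_empty.2 h]; exact finite_empty
  | .inr _, .inr _, h => h
  | .inl _, .inr _, h => h
  | .inr _, .inl _, h => h

lemma refine' : ∀ C A, les' C A → ∃ D, le' D C ∧ le' D A
  | .inl C, .inl A, h => ⟨.inl ⟨C.1 ∩ A.1, (C.2.diff h).mono fun _ hx =>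
      ⟨hx.1, by_contra fun e => hx.2 ⟨hx.1, e⟩⟩⟩, inter_subset_left, inter_subset_right⟩
  | .inr z, .inr _, h => ⟨.inr z, Or.inl rfl, h⟩
  | .inl _, .inr _, h => h.elim
  | .inr _, .inl _, h => h.elim

theorem sc : sp.IsSigmaClosed where
  refl := les_refl
  trans := les_trans
  coarse := coarse'
  sigma g hg := by
    have hm : ∀ m n, m ≤ n → les' (g n) (g m) := by
      intro m n h
      induction n, h using Nat.le_induction with
      | base => exact les_refl _
      | succ n _ ih => exact les_trans _ _ _ (hg n) ih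
    rcases h0 : g 0 with A | z
    · have : ∀ n, ∃ B : E, g n = .inl B := by
        intro n
        have := hm 0 n (Nat.zero_le _)
        rcases h : g n with B | w
        · exact ⟨B, rfl⟩
        · rw [h, h0] at this; exact this.elim
      choose B hB using this
      have hx : ∀ n, ∃ x, n ≤ x ∧ ∀ i ≤ n, x ∈ (B i).1 := by
        intro n
        have hf : (⋃ i ∈ Set.Iic n, (B n).1 \ (B i).1).Finite :=
          (Set.finite_Iic n).biUnion fun i hi => by
            have := hm i n hi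
            rw [hB, hB] at this
            exact this
        obtain ⟨x, h1, h2⟩ := ((B n).2.diff hf).exists_gt n
        exact ⟨x, h2.le, fun i hi => by_contra fun e => h1.2 (mem_biUnion (show i ∈ Set.Iic n from hi) ⟨h1.1, e⟩)⟩
      choose x x1 x2 using hx
      refine ⟨.inl ⟨range x, Set.infinite_of_not_bddAbove ?_⟩, fun n => ?_⟩
      · rintro ⟨b, hb⟩
        have := hb ⟨b + 1, rfl⟩
        have := x1 (b + 1)
        omega
      · rw [hB]
        refine ((Set.finite_Iio n).image x).subset ?_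
        rintro _ ⟨⟨i, rfl⟩, h⟩
        exact ⟨i, by_contra fun e => h (x2 i n (not_lt.1 e)), rfl⟩
    · by_cases h : ∃ n m, g n = .inr (true, m)
      · obtain ⟨n, m, h⟩ := h
        refine ⟨g n, fun k => ?_⟩
        rcases le_total k n with e | e
        · exact hm k n e
        · have := hm n k e
          rw [h] at this ⊢
          generalize g k = u at this ⊢
          rcases u with B | w
          · exact this.elim
          · rcases this with rfl | this
            · exact Or.inl rfl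
            · exact absurd this.2.1 (by simp)
      · refine ⟨g 0, fun k => ?_⟩
        have := hm 0 k (Nat.zero_le _)
        rw [h0] at this ⊢
        rcases hk : g k with B | ⟨b, m⟩
        · rw [hk] at this; exact this.elim
        · rw [hk] at this
          rcases this with this | this
          · exact Or.inl this.symm
          · exact absurd ⟨k, m, by rw [hk, show b = true from this.1]⟩ h
  sep A B := by
    constructor
    · intro h C hC
      obtain ⟨C', c1, c2⟩ := refine' C A hC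
      obtain ⟨D, d1, d2⟩ := h C' c2
      exact ⟨D, coarse' _ _ (le_trans' _ _ _ d1 c1), coarse' _ _ d2⟩
    · intro h C hC
      obtain ⟨D, d1, d2⟩ := h C (coarse' _ _ hC)
      obtain ⟨D', e1, e2⟩ := refine' D C d1
      obtain ⟨D'', f1, f2⟩ := refine' D' B (les_trans _ _ _ (coarse' _ _ e1) d2)
      exact ⟨D'', le_trans' _ _ _ f1 e2, f2⟩

lemma exists_tower : ∃ F, sp.Tower F := by
  obtain ⟨M, hM, hsub⟩ := (IsChain.singleton (r := les')
    (a := .inl ⟨univ, infinite_univ⟩)).exists_maxChain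
  refine ⟨M, fun X hX Y hY => ?_, ?_⟩
  · by_cases e : X = Y
    · exact Or.inl (e ▸ les_refl X)
    · exact hM.1 hX hY e
  · rintro ⟨Y | Y, hY⟩
    · let Y' : E := ⟨range fun i => Nat.nth (· ∈ Y.1) (2 * i),
        infinite_range_of_injective fun i j h => by have := (smono Y).injective h; omega⟩
      have h1 : les' (.inl Y') (.inl Y) := coarse' _ _ (by rintro _ ⟨i, rfl⟩; exact nmem Y _)
      have h2 : IsChain les' (insert (.inl Y') M) :=
        hM.1.insert fun X hX _ => Or.inl (les_trans _ _ _ h1 (hY X hX))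
      have h3 : Sum.inl Y' ∈ M := by
        rw [hM.2 h2 (subset_insert _ _)]; exact mem_insert _ _
      have h4 : (Y.1 \ Y'.1).Finite := hY _ h3
      refine (infinite_range_of_injective (f := fun i => Nat.nth (· ∈ Y.1) (2 * i + 1))
        fun i j h => by have := (smono Y).injective h; omega) (h4.subset ?_)
      rintro _ ⟨i, rfl⟩
      refine ⟨nmem Y _, ?_⟩
      rintro ⟨j, h⟩
      have := (smono Y).injective h
      omega
    · exact hY _ (hsub rfl)

lemma tower_unc {S : Data} (h1 : S.IsTRS) (h2 : S.IsSigmaClosed) {F : Set S.R} (hF : S.Tower F) :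
    ℵ₀ < #F := by
  by_contra hc
  rw [not_lt, Cardinal.le_aleph0_iff_set_countable] at hc
  rcases F.eq_empty_or_nonempty with rfl | hne
  · obtain ⟨Y⟩ := h1.ne
    exact hF.2 ⟨Y, fun _ h => h.elim⟩
  obtain ⟨f, rfl⟩ := hc.exists_eq_range hne
  have step : ∀ (X : range f) (n : ℕ), ∃ Y : range f, S.les Y.1 X.1 ∧ S.les Y.1 (f n) := by
    intro X n
    rcases hF.1 X.1 X.2 (f n) ⟨n, rfl⟩ with h | h
    · exact ⟨X, h2.refl _, h⟩
    · exact ⟨⟨f n, n, rfl⟩, h, h2.refl _⟩
  choose s s1 s2 using step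
  let g : ℕ → range f := fun n => Nat.rec ⟨f 0, 0, rfl⟩ (fun k X => s X k) n
  obtain ⟨Y, hY⟩ := h2.sigma (fun n => (g n).1) fun n => s1 _ _
  exact hF.2 ⟨Y, by rintro _ ⟨n, rfl⟩; exact h2.trans _ _ _ (hY (n + 1)) (s2 _ _)⟩

/-- There is a σ-closed topological Ramsey space which has towers and satisfies
`p_R ≤ ℵ₀ < t_R`. -/
theorem result : ∃ S : Data, S.IsTRS ∧ S.IsSigmaClosed ∧ (∃ F, S.Tower F) ∧
    (∃ F, S.SFIP F ∧ ¬ S.HasPI F) ∧ S.pR ≤ ℵ₀ ∧ ℵ₀ < S.tR ∧ S.pR ≠ S.tR := by
  let F : Set (E ⊕ Z) := range fun n : ℕ => Sum.inr (false, n)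
  have h1 : sp.SFIP F := by
    intro G hG hf
    obtain ⟨m, hm⟩ := (hf.preimage (f := fun n : ℕ => (Sum.inr (false, n) : E ⊕ Z))
      fun a _ b _ h => by simpa using h).bddAbove
    refine ⟨.inr (true, m), fun X hX => ?_⟩
    obtain ⟨n, rfl⟩ := hG hX
    exact Or.inr ⟨rfl, rfl, hm hX⟩
  have h2 : ¬ sp.HasPI F := by
    rintro ⟨Y | ⟨b, m⟩, hY⟩
    · exact hY _ ⟨0, rfl⟩
    · rcases hY _ ⟨m + 1, rfl⟩ with h | h
      · simp at h
      · exact absurd h.2.2 (by simp)
  have h3 : sp.pR ≤ ℵ₀ := (csInf_le' (show #F ∈ {c | ∃ F : Set sp.R, sp.SFIP F ∧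
      ¬ sp.HasPI F ∧ #F = c} from ⟨F, h1, h2, rfl⟩)).trans
    (Cardinal.le_aleph0_iff_set_countable.2 (countable_range _))
  have h4 : ℵ₀ < sp.tR := by
    obtain ⟨T, hT⟩ := exists_tower
    obtain ⟨T', h5, h6⟩ := csInf_mem (s := {c | ∃ F : Set sp.R, sp.Tower F ∧ #F = c}) ⟨_, T, hT, rfl⟩
    exact (tower_unc trs sc h5).trans_eq h6
  exact ⟨sp, trs, sc, exists_tower, ⟨F, h1, h2⟩, h3, h4, (h3.trans_lt h4).ne⟩

end Pool.Agent.Results.MP_fdc1ac_lc.Differ
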